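import Pool.Agent.H494R3.LD.C10

set_option autoImplicit false

/-!
# A diagram of simplicial monoids liftable by regular rings but not by C*-algebras of real rank zero

The index lattice is the Boolean lattice with five atoms. Around the six-element crown formed by the
atoms and coatoms of the cube, two copies of `ℕ^3` (mapping by the sum onto a copy of `ℕ`) are
twisted by a three-cycle and by a transposition. In a lifting by C*-algebras the monodromy is a
linear automorphism of a copy of the `3 × 3` matrices which permutes one frame of minimal projections
cyclically; its cube is the identity, which is incompatible with the action on the second frame.
Over a field with a suitable automorphism, the monodromy may be semilinear, and a lifting exists.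
-/

universe u

open Pool.Agent.H494R3.LD in
/-- There are a finite lattice `P` and a `P`-indexed commutative diagram of simplicial monoids which
lifts with respect to `V` by von Neumann regular rings (also by unital ones with unit-preserving
maps), but not by C*-algebras of real rank zero. -/
theorem Pool.Agent.Results.MP_a87542_al.RegularNotRealRankZero.result :
    ∃ (P : Type) (_ : Lattice P) (_ : Finite P) (_ : Nonempty P) (M : Diag P),
      LiftsReg M ∧ LiftsRegUnital M ∧ ¬ LiftsRR0.{u} M :=
  main
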